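import Pool.Agent.Helper4.S7.StD2

/-!
# Project W7, module OM: the values at the origin

The rows `ZL`, `OL` are, on solutions of the relations, the rows `BZ`, `BO`; their values at the origin are read off from VAL and
CERT2; the resulting constants are equal to `pj 0` of themselves, and `pj 0` is moved through `dX^a dY^b`.
-/

set_option autoImplicit false

namespace Pool.Agent.Helper43.S7

open Pool.Agent.Helper4.S7 Pool.Agent.Helper84.S7 Pool.Agent.Helper52.S7 Pool.Agent.Helper76.S7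

private lemma cast7 {S C : ℤ} (h : (7 : ℤ) ∣ S - C) : (S : ZMod 7) = (C : ZMod 7) := by
  have h1 := (ZMod.intCast_zmod_eq_zero_iff_dvd (S - C) 7).2 (by exact_mod_cast h)
  push_cast at h1
  exact sub_eq_zero.1 h1

private lemma tele {R : Type} [Ring R] (p0 A p1 B p2 : R) :
    p0 * (A * B) - A * B * p2 = (p0 * A - A * p1) * B + A * (p1 * B - B * p2) := by
  simp only [sub_mul, mul_sub, mul_assoc]
  abel

private lemma goodZ : ∀ f : Fin 2, ∀ t ∈ BZ f, Gd t := by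
  decide +kernel

private lemma goodO : ∀ f : Fin 2, ∀ t ∈ BO f, Gd t := by
  decide +kernel

section

variable {r s : ℕ}

private lemma lw_zero (k : ℤ) : Lw (0 : Module.End (ZMod 7) (Fn7 (7 ^ r) (7 ^ s))) k := by
  intro d F _
  rw [LinearMap.zero_apply]
  exact Submodule.zero_mem _

private lemma lw_powX (hl : S7Low0) (a : ℕ) :
    Lw (dX ^ a : Module.End (ZMod 7) (Fn7 (7 ^ r) (7 ^ s))) (a : ℤ) := by
  obtain ⟨hmul, -, -, -, -, hone, hX, -⟩ := hl r s
  induction a with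
  | zero => rw [pow_zero]; exact hone
  | succ a ih =>
    rw [pow_succ]
    have h := hmul _ _ _ _ ih hX
    push_cast
    exact h

private lemma lw_powY (hl : S7Low0) (a : ℕ) :
    Lw (dY ^ a : Module.End (ZMod 7) (Fn7 (7 ^ r) (7 ^ s))) (a : ℤ) := by
  obtain ⟨hmul, -, -, -, -, hone, -, hY, -⟩ := hl r s
  induction a with
  | zero => rw [pow_zero]; exact hone
  | succ a ih =>
    rw [pow_succ]
    have h := hmul _ _ _ _ ih hY
    push_cast
    exact h

private lemma commX (hl : S7Low0) (hj : S7Pj) (c a : ℕ) :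
    Lw (pj c * dX ^ a - dX ^ a * pj (c + a) : Module.End (ZMod 7) (Fn7 (7 ^ r) (7 ^ s))) ((a : ℤ) + 1) := by
  obtain ⟨hmul, hadd, -, hmono, -, hone, hX, -⟩ := hl r s
  obtain ⟨-, -, -, -, -, hc, -⟩ := hj r s
  induction a with
  | zero =>
    rw [pow_zero, mul_one, one_mul, add_zero, sub_self]
    exact lw_zero _
  | succ a ih =>
    have e : (pj c * dX ^ (a + 1) - dX ^ (a + 1) * pj (c + (a + 1)) :
        Module.End (ZMod 7) (Fn7 (7 ^ r) (7 ^ s))) =
        (pj c * dX ^ a - dX ^ a * pj (c + a)) * dX + dX ^ a * (pj (c + a) * dX - dX * pj (c + a + 1)) := by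
      rw [pow_succ, ← add_assoc]
      exact tele _ _ _ _ _
    rw [e]
    refine hadd _ _ _ ?_ ?_
    · have h := hmul _ _ _ _ ih hX
      push_cast
      exact h
    · have h := hmul _ _ _ _ (lw_powX hl a) (hc (c + a)).1
      have e2 : ((a : ℤ) + 2) = ((a + 1 : ℕ) : ℤ) + 1 := by push_cast; ring
      rw [← e2]
      exact h

private lemma commY (hl : S7Low0) (hj : S7Pj) (c a : ℕ) :
    Lw (pj c * dY ^ a - dY ^ a * pj (c + 5 * a) : Module.End (ZMod 7) (Fn7 (7 ^ r) (7 ^ s))) ((a : ℤ) + 1) := by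
  obtain ⟨hmul, hadd, -, hmono, -, hone, -, hY, -⟩ := hl r s
  obtain ⟨-, -, -, -, -, hc, -⟩ := hj r s
  induction a with
  | zero =>
    rw [pow_zero, mul_one, one_mul, mul_zero, add_zero, sub_self]
    exact lw_zero _
  | succ a ih =>
    have e : (pj c * dY ^ (a + 1) - dY ^ (a + 1) * pj (c + 5 * (a + 1)) :
        Module.End (ZMod 7) (Fn7 (7 ^ r) (7 ^ s))) =
        (pj c * dY ^ a - dY ^ a * pj (c + 5 * a)) * dY +
          dY ^ a * (pj (c + 5 * a) * dY - dY * pj (c + 5 * a + 5)) := by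
      rw [pow_succ, Nat.mul_add, ← add_assoc, Nat.mul_one]
      exact tele _ _ _ _ _
    rw [e]
    refine hadd _ _ _ ?_ ?_
    · have h := hmul _ _ _ _ ih hY
      push_cast
      exact h
    · have h := hmul _ _ _ _ (lw_powY hl a) (hc (c + 5 * a)).2
      have e2 : ((a : ℤ) + 2) = ((a + 1 : ℕ) : ℤ) + 1 := by push_cast; ring
      rw [← e2]
      exact h

/-- A constant `dX^a dY^b F` only sees the class `a + 5b` of `F`. -/
private lemma key (hl : S7Low0) (hj : S7Pj) (a b : ℕ) (F : Fn7 (7 ^ r) (7 ^ s))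
    (hF : F ∈ (Wd7 ((a : ℤ) + b) : Submodule (ZMod 7) (Fn7 (7 ^ r) (7 ^ s)))) :
    (dX ^ a * dY ^ b : Module.End (ZMod 7) (Fn7 (7 ^ r) (7 ^ s))) (pj (a + 5 * b) F) =
      (dX ^ a * dY ^ b : Module.End (ZMod 7) (Fn7 (7 ^ r) (7 ^ s))) F := by
  have hX := lw_powX (r := r) (s := s) hl a
  have hY := lw_powY (r := r) (s := s) hl b
  have hcX := commX (r := r) (s := s) hl hj 0 a
  have hcY := commY (r := r) (s := s) hl hj a b
  obtain ⟨hmul, hadd, -, -, -, -, -, -, -, -, -, -, -, hneg⟩ := hl r s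
  obtain ⟨-, -, -, -, -, -, h0, -⟩ := hj r s
  rw [zero_add] at hcX
  have e : (pj 0 * (dX ^ a * dY ^ b) - dX ^ a * dY ^ b * pj (a + 5 * b) :
      Module.End (ZMod 7) (Fn7 (7 ^ r) (7 ^ s))) =
      (pj 0 * dX ^ a - dX ^ a * pj a) * dY ^ b + dX ^ a * (pj a * dY ^ b - dY ^ b * pj (a + 5 * b)) :=
    tele _ _ _ _ _
  have hL : Lw (pj 0 * (dX ^ a * dY ^ b) - dX ^ a * dY ^ b * pj (a + 5 * b) :
      Module.End (ZMod 7) (Fn7 (7 ^ r) (7 ^ s))) ((a : ℤ) + b + 1) := by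
    rw [e]
    refine hadd _ _ _ ?_ ?_
    · have h := hmul _ _ _ _ hcX hY
      have e2 : (a : ℤ) + 1 + b = (a : ℤ) + b + 1 := by ring
      rw [← e2]
      exact h
    · have h := hmul _ _ _ _ hX hcY
      rw [← add_assoc] at h
      exact h
  have h1 := hL _ F hF
  have e3 : (a : ℤ) + b - ((a : ℤ) + b + 1) = -1 := by ring
  rw [e3] at h1
  have h2 := hneg _ h1
  have h3 : (dX ^ a * dY ^ b : Module.End (ZMod 7) (Fn7 (7 ^ r) (7 ^ s))) F ∈
      (Wd7 0 : Submodule (ZMod 7) (Fn7 (7 ^ r) (7 ^ s))) := by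
    have h := hmul _ _ _ _ hX hY _ F hF
    rwa [sub_self] at h
  have h4 : (pj 0 : Module.End (ZMod 7) (Fn7 (7 ^ r) (7 ^ s)))
      ((dX ^ a * dY ^ b : Module.End (ZMod 7) (Fn7 (7 ^ r) (7 ^ s))) F) -
      (dX ^ a * dY ^ b : Module.End (ZMod 7) (Fn7 (7 ^ r) (7 ^ s))) (pj (a + 5 * b) F) = 0 := h2
  rw [h0 _ h3] at h4
  exact (sub_eq_zero.1 h4).symm

end

/-- OM. -/
theorem hOm (hl : S7Low0) (hp : S7Opm) (hv : S7Val) (hj : S7Pj) (h1 : S7Cert1) (h2 : S7Cert2) : S7Om := by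
  intro r s F hR
  obtain ⟨hpm, hps, hpa, hpr⟩ := hp r s
  obtain ⟨c1, c2, -, -⟩ := h1
  obtain ⟨-, -, c3, c4⟩ := h2
  have hrel := (hpr F).1 hR
  -- multiples of the relations
  have hmul : ∀ (U : List Tm) (ρ : Fin 2), (∀ t ∈ U, Gd t) →
      ∑ f : Fin 2, opL (sclL (-1) (mulL U (relL ρ f))) (F f) = 0 := by
    intro U ρ hU
    have h3 : ∀ f : Fin 2, opL (sclL (-1) (mulL U (relL ρ f))) (F f) =
        (((-1 : ℤ)) : ZMod 7) • (opL U) (opL (relL ρ f) (F f)) := by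
      intro f
      rw [hps, (hpm U (relL ρ f) hU (fun t ht => (c1 ρ f).2.2.2.1 t ht)).2]
      rfl
    rw [Finset.sum_congr rfl fun f _ => h3 f, ← Finset.smul_sum, ← map_sum, hrel ρ, map_zero,
      smul_zero]
  have hsb : ∀ (L M : Fin 2 → List Tm), (∀ ρ, ∀ t ∈ M ρ, Gd t) →
      ∑ f : Fin 2, opL (L f) (F f) = ∑ f : Fin 2, opL (sbR L M f) (F f) := by
    intro L M hM
    have h3 : ∀ f : Fin 2, opL (sbR L M f) (F f) = opL (L f) (F f) +
        opL (sclL (-1) (mulL (M 0) (relL 0 f))) (F f) +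
        opL (sclL (-1) (mulL (M 1) (relL 1 f))) (F f) := by
      intro f
      unfold sbR
      rw [hpa, hpa, LinearMap.add_apply, LinearMap.add_apply]
    rw [Finset.sum_congr rfl fun f _ => h3 f, Finset.sum_add_distrib, Finset.sum_add_distrib,
      hmul (M 0) 0 (hM 0), hmul (M 1) 1 (hM 1), add_zero, add_zero]
  have hper : ∀ c : ℕ, (pj (c + 6) : Module.End (ZMod 7) (Fn7 (7 ^ r) (7 ^ s))) = pj c := (hj r s).2.2.1
  have hmono := (hl r s).2.2.2.2.1
  have o1 : Ob7 F 1 = pj 2 (F 0 + F 1) := rfl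
  have o2 : Ob7 F 2 = pj 4 (F 1) := rfl
  have o3 : Ob7 F 3 = pj 2 (F 1) := rfl
  refine ⟨fun hd => ?_, fun hd => ?_⟩
  · have hd6 : ∀ f, F f ∈ (Wd7 6 : Submodule (ZMod 7) (Fn7 (7 ^ r) (7 ^ s))) :=
      fun f => hmono 2 6 (by norm_num) (hd f)
    have hB : ∑ f : Fin 2, opL (ZL f) (F f) = ∑ f : Fin 2, opL (BZ f) (F f) :=
      hsb ZL MZ fun ρ => (c2 ρ).1
    rw [hB, Fin.sum_univ_two, Pi.add_apply, Pi.add_apply, hv r s _ (goodZ 0) _ (hd6 0),
      hv r s _ (goodZ 1) _ (hd6 1)]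
    have z0 : ∀ i ∈ Finset.range 7, ∀ j ∈ Finset.range 7, ((nS (BZ 0) i j : ℤ) : ZMod 7) *
        ((dX ^ i * dY ^ j : Module.End (ZMod 7) (Fn7 (7 ^ r) (7 ^ s))) (F 0)) 0 0 =
        (((if i = 2 ∧ j = 0 then 6 else 0 : ℤ)) : ZMod 7) *
        ((dX ^ i * dY ^ j : Module.End (ZMod 7) (Fn7 (7 ^ r) (7 ^ s))) (F 0)) 0 0 := by
      intro i hi j hj'
      rw [Finset.mem_range] at hi hj'
      by_cases hij : i + j ≤ 2
      · rw [cast7 (c3 i (by omega) j (by omega) hij).1]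
      · rw [hd 0 i j (by omega)]
        simp
    have z1 : ∀ i ∈ Finset.range 7, ∀ j ∈ Finset.range 7, ((nS (BZ 1) i j : ℤ) : ZMod 7) *
        ((dX ^ i * dY ^ j : Module.End (ZMod 7) (Fn7 (7 ^ r) (7 ^ s))) (F 1)) 0 0 =
        (((if i = 2 ∧ j = 0 then 6 else if i = 0 ∧ j = 2 then 5 else 0 : ℤ)) : ZMod 7) *
        ((dX ^ i * dY ^ j : Module.End (ZMod 7) (Fn7 (7 ^ r) (7 ^ s))) (F 1)) 0 0 := by
      intro i hi j hj'
      rw [Finset.mem_range] at hi hj'
      by_cases hij : i + j ≤ 2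
      · rw [cast7 (c3 i (by omega) j (by omega) hij).2]
      · rw [hd 1 i j (by omega)]
        simp
    rw [Finset.sum_congr rfl fun i hi => Finset.sum_congr rfl fun j hj' => z0 i hi j hj',
      Finset.sum_congr rfl fun i hi => Finset.sum_congr rfl fun j hj' => z1 i hi j hj']
    simp only [Finset.sum_range_succ, Finset.sum_range_zero]
    norm_num
    have k0 := key hl hj 2 0 (F 0 + F 1) (by simpa using Submodule.add_mem _ (hd 0) (hd 1))
    have k1 := key hl hj 0 2 (F 1) (by simpa using hd 1)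
    have e10 : (pj (0 + 5 * 2) : Module.End (ZMod 7) (Fn7 (7 ^ r) (7 ^ s))) = pj 4 := hper 4
    rw [e10] at k1
    have e2 : (pj (2 + 5 * 0) : Module.End (ZMod 7) (Fn7 (7 ^ r) (7 ^ s))) = pj 2 := rfl
    rw [e2, pow_zero, mul_one] at k0
    rw [pow_zero, one_mul] at k1
    rw [o1, o2, k0, k1, map_add]
    simp only [Pi.add_apply]
    ring
  · have hd6 : ∀ f, F f ∈ (Wd7 6 : Submodule (ZMod 7) (Fn7 (7 ^ r) (7 ^ s))) :=
      fun f => hmono 4 6 (by norm_num) (hd f)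
    have hB : ∑ f : Fin 2, opL (OL f) (F f) = ∑ f : Fin 2, opL (BO f) (F f) :=
      hsb OL MO fun ρ => (c2 ρ).2
    rw [hB, Fin.sum_univ_two, Pi.add_apply, Pi.add_apply, hv r s _ (goodO 0) _ (hd6 0),
      hv r s _ (goodO 1) _ (hd6 1)]
    have z0 : ∑ i ∈ Finset.range 7, ∑ j ∈ Finset.range 7, ((nS (BO 0) i j : ℤ) : ZMod 7) *
        ((dX ^ i * dY ^ j : Module.End (ZMod 7) (Fn7 (7 ^ r) (7 ^ s))) (F 0)) 0 0 = 0 := by
      refine Finset.sum_eq_zero fun i hi => Finset.sum_eq_zero fun j hj' => ?_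
      by_cases hij : i + j ≤ 4
      · rw [cast7 (C := 0) (by rw [sub_zero]; exact (c4 i (by omega) j (by omega) hij).1)]
        simp
      · rw [hd 0 i j (by omega)]
        simp
    have z1 : ∀ i ∈ Finset.range 7, ∀ j ∈ Finset.range 7, ((nS (BO 1) i j : ℤ) : ZMod 7) *
        ((dX ^ i * dY ^ j : Module.End (ZMod 7) (Fn7 (7 ^ r) (7 ^ s))) (F 1)) 0 0 =
        (((if i = 3 ∧ j = 1 then 4 else if i = 0 ∧ j = 4 then 3 else 0 : ℤ)) : ZMod 7) *
        ((dX ^ i * dY ^ j : Module.End (ZMod 7) (Fn7 (7 ^ r) (7 ^ s))) (F 1)) 0 0 := by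
      intro i hi j hj'
      rw [Finset.mem_range] at hi hj'
      by_cases hij : i + j ≤ 4
      · rw [cast7 (c4 i (by omega) j (by omega) hij).2]
      · rw [hd 1 i j (by omega)]
        simp
    rw [z0, zero_add, Finset.sum_congr rfl fun i hi => Finset.sum_congr rfl fun j hj' => z1 i hi j hj']
    simp only [Finset.sum_range_succ, Finset.sum_range_zero]
    norm_num
    have k0 := key hl hj 3 1 (F 1) (by simpa using hd 1)
    have k1 := key hl hj 0 4 (F 1) (by simpa using hd 1)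
    have e8 : (pj (3 + 5 * 1) : Module.End (ZMod 7) (Fn7 (7 ^ r) (7 ^ s))) = pj 2 := hper 2
    have e20 : (pj (0 + 5 * 4) : Module.End (ZMod 7) (Fn7 (7 ^ r) (7 ^ s))) = pj 2 :=
      (hper 14).trans ((hper 8).trans (hper 2))
    rw [e8, pow_one] at k0
    rw [e20, pow_zero, one_mul] at k1
    rw [o3, k1]
    have k2 : (dX ^ 3 : Module.End (ZMod 7) (Fn7 (7 ^ r) (7 ^ s))) (dY (pj 2 (F 1))) =
        (dX ^ 3 : Module.End (ZMod 7) (Fn7 (7 ^ r) (7 ^ s))) (dY (F 1)) := k0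
    rw [k2]
    have h7 : (7 : ZMod 7) = 0 := rfl
    linear_combination ((dY ^ 4 : Module.End (ZMod 7) (Fn7 (7 ^ r) (7 ^ s))) (F 1)) 0 0 * h7

end Pool.Agent.Helper43.S7
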